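import Pool.Agent.Helper17.OD.GoalsMA

set_option autoImplicit false

namespace Pool.Agent.Helper17.OD.PkCON1

open Set

theorem dmap_iff (h : G_MAPT.{2, 2}) {a : O} {f : O → O} (hf : StrictMonoOn f (Iio a)) {b : O}
    (hb : b < a) {t : T} (ht : t ∈ D (Iio a)) : t.map f ∈ D (Iio (f b)) ↔ t ∈ D (Iio b) := by
  obtain ⟨hl, -⟩ := h O O f (Iio a) hf
  show (t.map f).leaves ⊆ Iio (f b) ↔ t.leaves ⊆ Iio b
  rw [hl t]
  constructor
  · intro hh x hx
    exact (hf.lt_iff_lt (ht hx) hb).1 (hh ⟨x, hx, rfl⟩)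
  · rintro hh _ ⟨x, hx, rfl⟩
    exact (hf.lt_iff_lt (ht hx) hb).2 (hh hx)

theorem D_mono {A B : Set O} (h : A ⊆ B) {t : T} (ht : t ∈ D A) : t ∈ D B :=
  fun _ hx => h (ht hx)

theorem D_pr {A : Set O} {s t : T} (hs : s ∈ D A) (ht : t ∈ D A) : (Tr.pr s t : T) ∈ D A :=
  union_subset hs ht

/-- the least witness -/
theorem least (hW : G_LTW.{2}) (b : O) (φ : Code) (e y : T) (hy : y ∈ D (Iio b))
    (h : Tru b φ (.pr y e)) : ∃ y₀, IsW b φ e y₀ := by
  obtain ⟨y₀, hy₀, hmin⟩ := (hW O).has_min {y : T | y ∈ D (Iio b) ∧ Tru b φ (.pr y e)} ⟨y, hy, h⟩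
  exact ⟨y₀, hy₀.1, hy₀.2, fun z hz hz2 => hmin z ⟨hz, hz2⟩⟩

theorem stp_iff (hM : G_MAPT.{2, 2}) (hT : G_TVM.{2, 2}) {a : O} {f : O → O}
    (hf : StrictMonoOn f (Iio a)) {b : O} (hb : b < a)
    (R R' : O → Code → T → Prop)
    (hR : ∀ b₀ < b, ∀ e ∈ D (Iio b₀), ∀ c : Code, R b₀ c e ↔ R' (f b₀) c (e.map f))
    (hex : ∀ φ : Code, ∀ e ∈ D (Iio b), (∃ y ∈ D (Iio (f b)), stp (f b) R' φ (.pr y (e.map f))) →
      ∃ x ∈ D (Iio b), stp (f b) R' φ (.pr (x.map f) (e.map f))) :
    ∀ (n : ℕ) (c : Code), c.height ≤ n → ∀ e ∈ D (Iio b),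
      (stp b R c e ↔ stp (f b) R' c (e.map f)) := by
  obtain ⟨hl, hfs, hinj, hlt, hord, hmem, hoc, hoc2, hran, hD⟩ := hM O O f (Iio a) hf
  have hba : Iio b ⊆ Iio a := Iio_subset_Iio hb.le
  intro n
  induction n with
  | zero =>
    intro c hc e he
    rcases c with k | k | ⟨c1, c2⟩
    · simp only [stp]
    · exact k.elim
    · simp only [Tr.height] at hc
      omega
  | succ n ih =>
    intro c hc e he
    have htv : ∀ s : Code, tval s (e.map f) = (tval s e).map f := fun s => (hT O O f s e).1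
    have htl : ∀ s : Code, tval s e ∈ D (Iio b) := fun s => ((hT O O f s e).2).trans he
    have htla : ∀ s : Code, tval s e ∈ D (Iio a) := fun s => D_mono hba (htl s)
    rcases c with k | k | ⟨c1, c2⟩
    · simp only [stp]
    · exact k.elim
    rcases c1 with k | k | ⟨c11, c12⟩
    · rcases k with _ | _ | _ | _ | _ | _ | _ | k
      · -- 0
        rcases c2 with k | k | ⟨s, t⟩
        · simp [stp]
        · exact k.elim
        · simp only [stp]
          rw [htv, htv]
          exact ⟨fun h => by rw [h], fun h => hinj _ (htla s) _ (htla t) h⟩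
      · -- 1
        rcases c2 with k | k | ⟨s, t⟩
        · simp [stp]
        · exact k.elim
        · rw [stp, stp]
          rw [htv, htv]
          exact (hlt _ (htla s) _ (htla t)).symm
      · -- 2
        rw [stp, stp]
        rw [htv]
        exact (hord _).symm
      · -- 3
        rcases c2 with k | k | ⟨s, t⟩
        · simp [stp]
        · exact k.elim
        · rw [stp, stp]
          rw [htv, htv]
          exact (hmem _ (htla s) _ (htla t)).symm
      · -- 4
        rcases c2 with k | k | ⟨s, t⟩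
        · simp [stp]
        · exact k.elim
        rcases t with k | k | ⟨u, v⟩
        · simp [stp]
        · exact k.elim
        · rw [stp, stp]
          rw [htv, htv, htv]
          constructor
          · rintro ⟨b₀, c₀, h1, h2, h3, h4, h5⟩
            refine ⟨f b₀, c₀, ?_, hf (h2.trans hb) hb h2, ?_, ?_, ?_⟩
            · rw [h1]; rfl
            · rw [h3, hoc]
            · exact (dmap_iff hM hf (h2.trans hb) (htla v)).2 h4
            · exact (hR b₀ h2 _ h4 c₀).1 h5
          · rintro ⟨β, c₀, h1, h2, h3, h4, h5⟩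
            obtain ⟨b₀, hb0, rfl⟩ : ∃ b₀, tval s e = .ord b₀ ∧ β = f b₀ := by
              rcases hs : tval s e with k | k | ⟨x, y⟩
              · rw [hs] at h1
                simp [Tr.map] at h1
              · rw [hs] at h1
                refine ⟨k, rfl, ?_⟩
                simp only [Tr.map, Tr.ord.injEq] at h1
                exact h1.symm
              · rw [hs] at h1
                simp [Tr.map] at h1
            have hb0b : b₀ < b := by
              have := htl s
              rw [hb0] at this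
              exact this (mem_singleton b₀)
            have h4' := (dmap_iff hM hf (hb0b.trans hb) (htla v)).1 h4
            exact ⟨b₀, c₀, hb0, hb0b, (hoc2 _ _).1 h3, h4', (hR b₀ hb0b _ h4' c₀).2 h5⟩
      · -- 5
        rcases c2 with k | k | ⟨φ, ψ⟩
        · simp [stp]
        · exact k.elim
        · simp only [Tr.height] at hc
          rw [stp, stp]
          rw [ih φ (by omega) e he, ih ψ (by omega) e he]
      · -- 6
        simp only [Tr.height] at hc
        rw [stp, stp]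
        constructor
        · rintro ⟨x, hx, h⟩
          refine ⟨x.map f, (dmap_iff hM hf hb (D_mono hba hx)).2 hx, ?_⟩
          exact (ih c2 (by omega) _ (D_pr hx he)).1 h
        · intro h
          obtain ⟨x, hx, h'⟩ := hex c2 e he h
          exact ⟨x, hx, (ih c2 (by omega) _ (D_pr hx he)).2 h'⟩
      · simp [stp]
    · exact k.elim
    · simp [stp]

theorem thm (h1 : G_MAPT.{2, 2}) (h2 : G_TVM.{2, 2}) (h3 : G_LTO.{2}) (h4 : G_LTW.{2}) :
    G_CON1 := by
  intro a f hf hW
  obtain ⟨hl, hfs, hinj, hlt, hord, hmem, hoc, hoc2, hran, hD⟩ := h1 O O f (Iio a) hf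
  obtain ⟨hirr, htr, htri⟩ := h3 O
  -- witnesses at `f b` are images
  have hwit : ∀ b < a, ∀ e ∈ D (Iio b), ∀ (φ : Code) (y : T), IsW (f b) φ (e.map f) y →
      ∃ x ∈ D (Iio b), x.map f = y := by
    intro b hb e he φ y hy
    obtain ⟨x, hx, hxy⟩ := (hran y).1 (hW b hb e he φ y hy)
    refine ⟨x, (dmap_iff h1 hf hb hx).1 ?_, hxy⟩
    rw [hxy]
    exact hy.1
  have main : ∀ b, b < a → ∀ e ∈ D (Iio b), ∀ c : Code, Tru b c e ↔ Tru (f b) c (e.map f) := by
    intro b
    induction b using WellFoundedLT.induction with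
    | ind b ih =>
      intro hb e he c
      rw [tru_eq b, tru_eq (f b)]
      refine stp_iff h1 h2 hf hb _ _ ?_ ?_ c.height c le_rfl e he
      · intro b₀ hb₀ e' he' c'
        have := ih b₀ hb₀ (hb₀.trans hb) e' he' c'
        constructor
        · rintro ⟨-, h⟩
          exact ⟨hf (hb₀.trans hb) hb hb₀, this.1 h⟩
        · rintro ⟨-, h⟩
          exact ⟨hb₀, this.2 h⟩
      · rintro φ e' he' ⟨y, hy, h⟩
        rw [← tru_eq] at h ⊢
        obtain ⟨y₀, hy₀⟩ := least h4 (f b) φ (e'.map f) y hy h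
        obtain ⟨x, hx, hxy⟩ := hwit b hb e' he' φ y₀ hy₀
        refine ⟨x, hx, ?_⟩
        rw [hxy]
        exact hy₀.2.1
  refine ⟨main, ?_⟩
  intro b hb e he x hx φ
  constructor
  · rintro ⟨k1, k2, k3⟩
    refine ⟨(dmap_iff h1 hf hb hx).2 k1, (main b hb _ (D_pr k1 he) φ).1 k2, ?_⟩
    intro y hy hy2 hyx
    obtain ⟨y₀, hy₀⟩ := least h4 (f b) φ (e.map f) y hy hy2
    obtain ⟨x₀, hx₀, hxy⟩ := hwit b hb e he φ y₀ hy₀
    have hx0a : x₀ ∈ D (Iio a) := D_mono (Iio_subset_Iio hb.le) hx₀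
    have h5 : Tru b φ (.pr x₀ e) := by
      refine (main b hb _ (D_pr hx₀ he) φ).2 ?_
      show Tru (f b) φ (.pr (x₀.map f) (e.map f))
      rw [hxy]
      exact hy₀.2.1
    have h6 := k3 x₀ hx₀ h5
    apply h6
    rw [← hlt x₀ hx0a x hx, hxy]
    rcases htri y₀ y with h | h | h
    · exact htr _ _ _ h hyx
    · rw [h]; exact hyx
    · exact absurd h (hy₀.2.2 y hy hy2)
  · rintro ⟨k1, k2, k3⟩
    have k1' := (dmap_iff h1 hf hb hx).1 k1
    refine ⟨k1', (main b hb _ (D_pr k1' he) φ).2 k2, ?_⟩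
    intro y hy hy2 hyx
    have hya : y ∈ D (Iio a) := D_mono (Iio_subset_Iio hb.le) hy
    exact k3 (y.map f) ((dmap_iff h1 hf hb hya).2 hy) ((main b hb _ (D_pr hy he) φ).1 hy2)
      ((hlt y hya x hx).2 hyx)

end Pool.Agent.Helper17.OD.PkCON1
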