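import Pool.Agent.Helper17.OD.GoalsSO

set_option autoImplicit false

namespace Pool.Agent.Helper17.OD.PkDCH

open Set

theorem thm (h1 : G_REC) (h2 : G_TRE) (h3 : G_LTO.{2}) (h4 : G_LTW.{2}) : G_DCH := by
  intro k S S' hS R hR Y hY hRY y₀ hy₀
  have := hS
  classical
  obtain ⟨-, hlt, -, -, -, -, -, -, hsucc, -⟩ := h2 k S S' hS
  obtain ⟨d, hd, hYd⟩ := hS.bdd Y (hS.sub hY)
  obtain ⟨hirr, htr, htri⟩ := h3 O
  have hk0 : (0 : O) < k := lt_of_le_of_lt zero_le hd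
  have hYk : Y ⊆ D (Iio k) := hYd.trans (D_mono (Iio_subset_Iio hd.le))
  have hnx : ∀ y, ∃ y', y ∈ Y → y' ∈ Y ∧ Tr.pr y' y ∈ R ∧
      ∀ w ∈ Y, Tr.pr w y ∈ R → ¬ w.lt y' := by
    intro y
    by_cases hy : y ∈ Y
    · obtain ⟨y', hy', h⟩ := hRY y hy
      obtain ⟨z, hz, hmin⟩ := (h4 O).has_min {w : T | w ∈ Y ∧ Tr.pr w y ∈ R} ⟨y', hy', h⟩
      exact ⟨z, fun _ => ⟨hz.1, hz.2, fun w hw hw2 => hmin w ⟨hw, hw2⟩⟩⟩
    · exact ⟨y, fun h => absurd h hy⟩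
  choose nx hnx using hnx
  obtain ⟨s, hs0, hs1⟩ : ∃ s : ℕ → T, s 0 = y₀ ∧ ∀ n, s (n + 1) = nx (s n) :=
    ⟨fun n => Nat.rec y₀ (fun _ y => nx y) n, rfl, fun _ => rfl⟩
  have hsY : ∀ n, s n ∈ Y := by
    intro n
    induction n with
    | zero => rw [hs0]; exact hy₀
    | succ n ih => rw [hs1]; exact (hnx _ ih).1
  have hN : ∀ z ∈ Y, ∀ y, (y ∈ Y ∧ Tr.pr y z ∈ R ∧
      ∀ w ∈ D (Iio k), w ∈ Y → Tr.pr w z ∈ R → ¬ w.lt y) ↔ y = nx z := by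
    intro z hz y
    constructor
    · rintro ⟨k1, k2, k3⟩
      obtain ⟨m1, m2, m3⟩ := hnx z hz
      rcases htri y (nx z) with h | h | h
      · exact absurd h (m3 y k1 k2)
      · exact h
      · exact absurd h (k3 _ (hYk m1) m1 m2)
    · rintro rfl
      obtain ⟨m1, m2, m3⟩ := hnx z hz
      exact ⟨m1, m2, fun w _ hw hw2 => m3 w hw hw2⟩
  have hyk : y₀ ∈ D (Iio k) := hYk hy₀
  have key := h1 k S S' hS (fun x => {x' | ∃ n : ℕ, x' = .nat n ∧ x = .nat (n + 1)})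
    (fun x => {y | ∃ n : ℕ, x = .nat n ∧ y = s n})
    (fun x y G => (x = .nat 0 ∧ y = y₀) ∨ ∃ x' ∈ D (Iio k), ∃ z ∈ D (Iio k),
      ((∃ n : ℕ, x' = .nat n ∧ x = .nat (n + 1)) ∧ Tr.pr x' z ∈ G ∧ y ∈ Y ∧ Tr.pr y z ∈ R ∧
        ∀ w ∈ D (Iio k), w ∈ Y → Tr.pr w z ∈ R → ¬ w.lt y)) hsucc ?_ ?_ ?_ ?_ ?_
  · have h5 := key.2 0 hk0
    refine ⟨s, hs0, hsY, fun n => ?_, ?_⟩
    · rw [hs1]
      exact (hnx _ (hsY n)).2.1
    · convert h5 using 1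
      ext p
      constructor
      · rintro ⟨n, rfl⟩
        exact ⟨.nat n, nat_mem _ _, s n, ⟨n, rfl, rfl⟩, rfl⟩
      · rintro ⟨x, -, y, ⟨n, rfl, rfl⟩, rfl⟩
        exact ⟨n, rfl⟩
  · refine SD.or ?_ ?_
    · exact SD.and (SD.eq ST.id.fst (ST.nat 0)) (SD.eq ST.id.snd (ST.const hyk))
    · refine SD.exT (P := fun e x' σ => ∃ z ∈ D (Iio k),
        ((∃ n : ℕ, x' = .nat n ∧ e.fst = .nat (n + 1)) ∧ Tr.pr x' z ∈ σ 0 ∧ e.snd ∈ Y ∧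
          Tr.pr e.snd z ∈ R ∧ ∀ w ∈ D (Iio k), w ∈ Y → Tr.pr w z ∈ R → ¬ w.lt e.snd)) ?_
      refine SD.exT (P := fun e z σ =>
        ((∃ n : ℕ, e.fst = .nat n ∧ e.snd.fst = .nat (n + 1)) ∧ Tr.pr e.fst z ∈ σ 0 ∧
          e.snd.snd ∈ Y ∧ Tr.pr e.snd.snd z ∈ R ∧
          ∀ w ∈ D (Iio k), w ∈ Y → Tr.pr w z ∈ R → ¬ w.lt e.snd.snd)) ?_
      refine SD.and ?_ (SD.and ?_ (SD.and ?_ (SD.and ?_ ?_)))
      · exact SD.app2 (R := fun a b => ∃ n : ℕ, a = .nat n ∧ b = .nat (n + 1)) hsucc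
          ST.id.snd.fst ST.id.snd.snd.fst
      · exact SD.mem (ST.pr ST.id.snd.fst ST.id.fst) (SV.var 0)
      · exact SD.mem ST.id.snd.snd.snd (SV.par hY)
      · exact SD.mem (ST.pr ST.id.snd.snd.snd ST.id.fst) (SV.par hR)
      · refine SD.allT (P := fun e w σ => w ∈ Y → Tr.pr w e.fst ∈ R → ¬ w.lt e.snd.snd.snd) ?_
        refine SD.imp (SD.mem ST.id.fst (SV.par hY)) (SD.imp (SD.mem
          (ST.pr ST.id.fst ST.id.snd.fst) (SV.par hR)) (SD.not ?_))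
        exact SD.app2 (R := fun a b => a.lt b) hlt ST.id.fst ST.id.snd.snd.snd.snd
  · refine ⟨fun x => ?_⟩
    have hacc : ∀ n : ℕ, Acc (fun y x : T => y ∈ {x' : T | ∃ n : ℕ, x' = .nat n ∧
        x = .nat (n + 1)}) (.nat n) := by
      intro n
      induction n with
      | zero =>
        refine ⟨_, fun y hy => ?_⟩
        obtain ⟨m, -, hm⟩ := hy
        simp at hm
      | succ n ih =>
        refine ⟨_, fun y hy => ?_⟩
        obtain ⟨m, hm1, hm⟩ := hy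
        have : m = n := by
          simp only [Tr.nat.injEq] at hm
          omega
        rw [hm1, this]
        exact ih
    refine ⟨_, fun y hy => ?_⟩
    obtain ⟨m, hm, -⟩ := hy
    rw [hm]
    exact hacc m
  · refine ⟨0, hk0, fun b _ _ x _ y hy => ?_⟩
    obtain ⟨m, hm, -⟩ := hy
    rw [hm]
    exact nat_mem _ _
  · intro x hx y
    constructor
    · rintro ⟨n, rfl, rfl⟩
      refine ⟨hYk (hsY n), ?_⟩
      rcases n with _ | n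
      · exact Or.inl ⟨rfl, hs0⟩
      · refine Or.inr ⟨.nat n, nat_mem _ _, s n, hYk (hsY n), ⟨n, rfl, rfl⟩, ?_, ?_⟩
        · exact ⟨.nat n, s n, rfl, ⟨n, rfl, rfl⟩, ⟨n, rfl, rfl⟩⟩
        · exact (hN _ (hsY n) _).2 (hs1 n)
    · rintro ⟨hy, ⟨rfl, rfl⟩ | ⟨x', hx', z, hz, ⟨n, hn1, hn2⟩, hG, hyz⟩⟩
      · exact ⟨0, rfl, hs0.symm⟩
      · refine ⟨n + 1, hn2, ?_⟩
        obtain ⟨x'', y'', h5, -, ⟨m, h7, h8⟩⟩ := hG
        simp only [Tr.pr.injEq] at h5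
        obtain ⟨h5, h6⟩ := h5
        rw [← h5, hn1] at h7
        simp only [Tr.nat.injEq] at h7
        have hz' : z = s n := by rw [h6, h8, h7]
        rw [hz'] at hyz
        rw [hs1]
        exact (hN _ (hsY n) _).1 hyz
  · intro b _
    refine ⟨d, hd, fun x _ y hy => ?_⟩
    obtain ⟨m, -, hm⟩ := hy
    rw [hm]
    exact hYd (hsY m)

end Pool.Agent.Helper17.OD.PkDCH
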